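import Pool.Agent.Helper13.TW.StE

/-!
# Project TW, module LRB: small joint subdivisions
-/

set_option autoImplicit false

namespace Pool.Agent.Helper66.TW

open Set Topology Pool.Agent.Helper13.TR Pool.Agent.Helper13.TW

private lemma scc_compact {X : Type} [MetricSpace X] {J : Set X} (h : IsSCC J) : IsCompact J := by
  obtain ⟨p, q, D₁, D₂, h1, h2, _, h4⟩ := h
  obtain ⟨γ, _, hγ⟩ := h1
  obtain ⟨δ, _, hδ⟩ := h2
  rw [← h4, ← hγ, ← hδ]
  exact (isCompact_range γ.continuous).union (isCompact_range δ.continuous)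

private lemma scc_nonempty {X : Type} [MetricSpace X] {J : Set X} (h : IsSCC J) : J.Nonempty := by
  obtain ⟨p, q, D₁, D₂, h1, _, _, h4⟩ := h
  obtain ⟨γ, _, hγ⟩ := h1
  refine ⟨p, ?_⟩
  rw [← h4]
  left
  rw [← hγ]
  exact ⟨0, γ.source⟩

private lemma inv_cont {X X' : Type} [MetricSpace X] [MetricSpace X'] [Nonempty X] {f : X → X'}
    {K : Set X} (hK : IsCompact K) (hf : ContinuousOn f K) (hi : InjOn f K) :
    ContinuousOn (Function.invFunOn f K) (f '' K) := by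
  have : CompactSpace K := isCompact_iff_compactSpace.1 hK
  obtain ⟨e, he⟩ : ∃ e : K ≃ (f '' K), e = Equiv.Set.imageOfInjOn f K hi := ⟨_, rfl⟩
  have hec : Continuous e := by
    rw [he]
    exact Continuous.subtype_mk (continuousOn_iff_continuous_domRestrict.1 hf) _
  obtain ⟨φ, hφ⟩ : ∃ φ : K ≃ₜ (f '' K), φ = hec.homeoOfEquivCompactToT2 := ⟨_, rfl⟩
  rw [continuousOn_iff_continuous_domRestrict]
  have h1 : (f '' K).domRestrict (Function.invFunOn f K) = fun y => ((φ.symm y : K) : X) := by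
    funext y
    obtain ⟨x, hx⟩ : ∃ x : K, φ x = y := φ.surjective y
    rw [← hx, φ.symm_apply_apply]
    have h2 : ((φ x : (f '' K)) : X') = f x := by
      rw [hφ]
      show ((e x : (f '' K)) : X') = f x
      rw [he]
      rfl
    show Function.invFunOn f K ((φ x : (f '' K)) : X') = x
    rw [h2]
    exact hi.leftInvOn_invFunOn x.2
  rw [h1]
  exact continuous_subtype_val.comp φ.symm.continuous

section

variable {X X' : Type} [MetricSpace X] [MetricSpace X']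

/-- the swapped pair -/
private noncomputable def sw [Nonempty X] (M : MP X X') : MP X' X where
  E := M.E'
  J := M.J'
  E' := M.E
  J' := M.J
  h := Function.invFunOn M.h M.J

private lemma sw_val [Nonempty X] {cell : Set X → Set X → Prop} {cell' : Set X' → Set X' → Prop}
    (hc : CSy cell) (M : MP X X') (hM : Val cell cell' M) : Val cell' cell (sw M) := by
  obtain ⟨h1, h2, h3, h4, h5⟩ := hM
  have hK := scc_compact (hc.cpt _ _ h1).2.2
  have hinv : LeftInvOn (Function.invFunOn M.h M.J) M.h M.J := h4.leftInvOn_invFunOn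
  refine ⟨h2, h1, ?_, ?_, ?_⟩
  · show ContinuousOn (Function.invFunOn M.h M.J) M.J'
    rw [← h5]
    exact inv_cont hK h3 h4
  · show InjOn (Function.invFunOn M.h M.J) M.J'
    rw [← h5]
    rintro _ ⟨x, hx, rfl⟩ _ ⟨y, hy, rfl⟩ hxy
    rw [hinv hx, hinv hy] at hxy
    rw [hxy]
  · show Function.invFunOn M.h M.J '' M.J' = M.J
    rw [← h5]
    ext x
    constructor
    · rintro ⟨_, ⟨y, hy, rfl⟩, rfl⟩
      rw [hinv hy]
      exact hy
    · intro hx
      exact ⟨M.h x, ⟨x, hx, rfl⟩, hinv hx⟩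

/-- for `x` in the image curve: the inverse value -/
private lemma inv_spec [Nonempty X] {cell : Set X → Set X → Prop} {cell' : Set X' → Set X' → Prop}
    (A : MP X X') (hA : Val cell cell' A) (x : X') (hx : x ∈ A.J') :
    Function.invFunOn A.h A.J x ∈ A.J ∧ A.h (Function.invFunOn A.h A.J x) = x := by
  have h5 := hA.2.2.2.2
  rw [← h5] at hx
  exact ⟨Function.invFunOn_mem hx, Function.invFunOn_eq hx⟩

private lemma sw_LR [Nonempty X] [Nonempty X'] {cell : Set X → Set X → Prop}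
    {cell' : Set X' → Set X' → Prop} (hc' : CSy cell') (M : MP X X')
    (hM : Val cell cell' M) (L : Set (MP X' X)) (hL : LR cell' cell (sw M) L) :
    LR cell cell' M (sw '' L) := by
  have hinvM : LeftInvOn (Function.invFunOn M.h M.J) M.h M.J := hM.2.2.2.1.leftInvOn_invFunOn
  have hMJ : ∀ x ∈ M.J, M.h x ∈ M.J' := by
    intro x hx
    rw [← hM.2.2.2.2]
    exact ⟨x, hx, rfl⟩
  refine ⟨hL.fin.image _, ?_, ?_, ?_, ?_, ?_, ?_, ?_, ?_, ?_, ?_, ?_⟩
  · rintro _ ⟨A, hA, rfl⟩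
    exact sw_val hc' A (hL.val A hA)
  · have h := hL.un'
    rw [biUnion_image]
    exact h
  · have h := hL.un
    rw [biUnion_image]
    exact h
  · rintro _ ⟨A, hA, rfl⟩ _ ⟨B, hB, rfl⟩ hne
    exact hL.dis' A hA B hB fun h => hne (by rw [h])
  · rintro _ ⟨A, hA, rfl⟩ _ ⟨B, hB, rfl⟩ hne
    exact hL.dis A hA B hB fun h => hne (by rw [h])
  · rintro _ ⟨A, hA, rfl⟩ _ ⟨B, hB, rfl⟩ x hx
    obtain ⟨a1, a2⟩ := inv_spec A (hL.val A hA) x hx.1
    obtain ⟨b1, b2⟩ := inv_spec B (hL.val B hB) x hx.2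
    exact hL.inj A hA B hB _ a1 _ b1 (a2.trans b2.symm)
  · rintro _ ⟨A, hA, rfl⟩ _ ⟨B, hB, rfl⟩ x hx y hy hxy
    obtain ⟨a1, a2⟩ := inv_spec A (hL.val A hA) x hx
    obtain ⟨b1, b2⟩ := inv_spec B (hL.val B hB) y hy
    have h1 : Function.invFunOn A.h A.J x = Function.invFunOn B.h B.J y := hxy
    rw [← h1] at b1 b2
    rw [← a2, ← b2]
    exact hL.agr A hA B hB _ ⟨a1, b1⟩
  · rintro _ ⟨A, hA, rfl⟩
    exact hL.bdy' A hA
  · rintro _ ⟨A, hA, rfl⟩
    exact hL.bdy A hA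
  · rintro _ ⟨A, hA, rfl⟩ x hx
    obtain ⟨a1, a2⟩ := inv_spec A (hL.val A hA) x hx.1
    refine hL.inb A hA _ a1 _ (hMJ x hx.2) ?_
    rw [a2]
    exact (hinvM hx.2).symm
  · rintro _ ⟨A, hA, rfl⟩ x hx y hy hxy
    obtain ⟨a1, a2⟩ := inv_spec A (hL.val A hA) x hx
    have h1 : Function.invFunOn A.h A.J x = M.h y := hxy
    have h2 := hL.agb A hA (Function.invFunOn A.h A.J x) ⟨a1, by
      rw [h1]
      exact hMJ y hy⟩
    rw [a2, h1] at h2
    rw [h2]
    exact hinvM hy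

end

/-- MODULE LRB -/
theorem hLRB (hLRA : StLRA) (hLRC : StLRC) : StLRB := by
  intro X X' _ _ cell cell' hc hc' M hM ε hε
  obtain ⟨x0, hx0⟩ := scc_nonempty (hc.cpt _ _ hM.1).2.2
  obtain ⟨y0, hy0⟩ := scc_nonempty (hc'.cpt _ _ hM.2.1).2.2
  have : Nonempty X := ⟨x0⟩
  have : Nonempty X' := ⟨y0⟩
  obtain ⟨L0, hL0, hd0⟩ := hLRA X' X cell' cell hc' hc (sw M) (sw_val hc M hM) ε hε
  have hL1 := sw_LR hc' M hM L0 hL0
  have hex : ∀ N : MP X X', ∃ K : Set (MP X X'), N ∈ sw '' L0 →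
      (LR cell cell' N K ∧ ∀ A ∈ K, Metric.diam A.E < ε) := by
    intro N
    by_cases hN : N ∈ sw '' L0
    · obtain ⟨K, hK⟩ := hLRA X X' cell cell' hc hc' N (hL1.val N hN) ε hε
      exact ⟨K, fun _ => hK⟩
    · exact ⟨∅, fun h => absurd h hN⟩
  choose K hK using hex
  refine ⟨⋃ N ∈ sw '' L0, K N, (hLRC X X' cell cell' hc hc').1 M (sw '' L0) K hM hL1
    (fun N hN => (hK N hN).1), ?_⟩
  intro A hA
  simp only [mem_iUnion] at hA
  obtain ⟨N, hN, hAN⟩ := hA
  refine ⟨(hK N hN).2 A hAN, ?_⟩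
  obtain ⟨B, hB, rfl⟩ := hN
  have h1 : A.E' ⊆ (sw B).E' := by
    rw [← (hK _ ⟨B, hB, rfl⟩).1.un']
    exact subset_biUnion_of_mem (u := fun N : MP X X' => N.E') hAN
  have h2 : IsCompact (sw B).E' := (hc'.cpt _ _ (hL1.val _ ⟨B, hB, rfl⟩).2.1).1
  exact lt_of_le_of_lt (Metric.diam_mono h1 h2.isBounded) (hd0 B hB)

end Pool.Agent.Helper66.TW
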