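import Pool.Agent.Helper13.TW.StD

/-!
# Project TW, module SDM: subdivision of 1-cycles into small simplices

The lemmas on iterated subdivision are those of the module SDE of project TR
(`Pool/Agent/Helper97/TR/M_SDE.lean`).
-/

set_option autoImplicit false

namespace Pool.Agent.Helper66.TW

open Set Topology Pool.Agent.Helper13.TR Pool.Agent.Helper13.TW

/-- linear maps on chains with support in a set -/
private lemma map_sup {α β : Type*} [AddCommGroup β] [Module ℤ β] (f : (α →₀ ℤ) →ₗ[ℤ] β) (s : Set α)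
    (N : Submodule ℤ β) (h : ∀ a ∈ s, f (Finsupp.single a 1) ∈ N) :
    ∀ c ∈ Finsupp.supported ℤ ℤ s, f c ∈ N := by
  intro c hc
  rw [Finsupp.supported_eq_span_single] at hc
  have h1 : Submodule.span ℤ ((fun i => Finsupp.single i (1 : ℤ)) '' s) ≤ N.comap f := by
    rw [Submodule.span_le]
    rintro _ ⟨a, ha, rfl⟩
    exact h a ha
  exact h1 hc

private lemma act_single {X : Type} [TopologicalSpace X] {n k : ℕ} (σ : Sx X n) (w : Av n k) :
    act σ k (Finsupp.single w 1) = Finsupp.single (σ.comp (lin w)) 1 := by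
  unfold act
  rw [Finsupp.lmapDomain_apply, Finsupp.mapDomain_single]

private lemma range_comp_sub {X : Type} [TopologicalSpace X] {n k : ℕ} (σ : Sx X n) (w : Av n k) :
    range (σ.comp (lin w)) ⊆ range σ := by
  rintro _ ⟨t, rfl⟩
  exact ⟨lin w t, rfl⟩

private lemma Sd_single {X : Type} [TopologicalSpace X] {n : ℕ} (σ : Sx X n) :
    Sd n (Finsupp.single σ 1) = act σ n (asd n (Finsupp.single (iot n) 1)) := by
  unfold Sd
  rw [Finsupp.linearCombination_single, one_smul]

private lemma act_comp (hLNA : StLNA) {X : Type} [TopologicalSpace X] {n m k : ℕ} (σ : Sx X m) (u : Av m n)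
    (a : AC n k) : act (σ.comp (lin u)) k a = act σ k (amap (lin u) k a) := by
  have h : act (σ.comp (lin u)) k = (act σ k).comp (amap (lin u) k) := by
    refine Finsupp.lhom_ext' fun w => LinearMap.ext_ring ?_
    simp only [LinearMap.comp_apply, Finsupp.lsingle_apply]
    rw [act_single]
    unfold amap
    rw [Finsupp.lmapDomain_apply, Finsupp.mapDomain_single, act_single, ← hLNA.2.2.1]
    rfl
  rw [h]
  rfl

private lemma Sd_act (hLNA : StLNA) (hABD : StABD) {X : Type} [TopologicalSpace X] {n : ℕ} (σ : Sx X n)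
    (a : AC n n) : Sd n (act σ n a) = act σ n (asd n a) := by
  have h : (Sd n).comp (act σ n) = (act σ n).comp (asd n) := by
    refine Finsupp.lhom_ext' fun v => LinearMap.ext_ring ?_
    simp only [LinearMap.comp_apply, Finsupp.lsingle_apply]
    rw [act_single, Sd_single, act_comp hLNA, hABD.2.2.2.1]
    congr 2
    unfold amap
    rw [Finsupp.lmapDomain_apply, Finsupp.mapDomain_single]
    congr 1
    funext i
    exact hLNA.1 n n v i
  exact LinearMap.congr_fun h a

private lemma Sd_iter (hLNA : StLNA) (hABD : StABD) {X : Type} [TopologicalSpace X] {n : ℕ} (σ : Sx X n)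
    (m : ℕ) : ((Sd n)^[m]) (Finsupp.single σ 1) = act σ n (((asd n)^[m]) (Finsupp.single (iot n) 1)) := by
  induction m with
  | zero =>
    simp only [Function.iterate_zero, id_eq]
    rw [act_single, hLNA.2.2.2.2]
    rfl
  | succ m ih =>
    rw [Function.iterate_succ_apply', Function.iterate_succ_apply', ih, Sd_act hLNA hABD]

/-- the mesh of the iterated subdivision -/
private lemma mesh (hMSH : StMSH) (n m : ℕ) : ((asd n)^[m]) (Finsupp.single (iot n) 1) ∈
    Finsupp.supported ℤ ℤ {w : Av n n | ∀ i j, dist (w i) (w j) ≤ ((n : ℝ) / (n + 1)) ^ m * 2} := by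
  induction m with
  | zero =>
    refine Finsupp.single_mem_supported ℤ 1 fun i j => ?_
    rw [pow_zero, one_mul]
    have h : ∀ x : Dl n, dist (x : Fin (n + 1) → ℝ) 0 ≤ 1 := by
      intro x
      rw [dist_pi_le_iff zero_le_one]
      intro l
      have h0 : ∀ i, 0 ≤ x i := fun i => x.2.1 i
      have h1 : ∑ i, x i = 1 := x.2.2
      rw [Real.dist_eq, Pi.zero_apply, sub_zero]
      change |x l| ≤ 1
      rw [abs_of_nonneg (h0 l), ← h1]
      exact Finset.single_le_sum (fun i _ => h0 i) (Finset.mem_univ l)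
    calc dist (iot n i) (iot n j) = dist (iot n i : Fin (n + 1) → ℝ) (iot n j : Fin (n + 1) → ℝ) := rfl
      _ ≤ dist (iot n i : Fin (n + 1) → ℝ) 0 + dist 0 (iot n j : Fin (n + 1) → ℝ) := dist_triangle _ _ _
      _ ≤ 1 + 1 := add_le_add (h _) (by rw [dist_comm]; exact h _)
      _ = 2 := by norm_num
  | succ m ih =>
    rw [Function.iterate_succ_apply']
    refine map_sup (asd n) _ _ (fun v hv => ?_) _ ih
    rw [Finsupp.mem_supported]
    intro w hw i j
    have h := (hMSH.1 n n v _ hv w hw).2 i j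
    calc dist (w i) (w j) ≤ (n : ℝ) / (n + 1) * (((n : ℝ) / (n + 1)) ^ m * 2) := h
      _ = _ := by ring

private lemma lin_ball {n k : ℕ} (w : Av n k) (r : ℝ) (h : ∀ i, dist (w i) (w 0) ≤ r) (t : Dl k) :
    dist (lin w t) (w 0) ≤ r := by
  have h0 : ∀ i, 0 ≤ t i := fun i => t.2.1 i
  have h1 : ∑ i, t i = 1 := t.2.2
  have e : dist (lin w t) (w 0) = ‖(∑ i, (t : Fin (k + 1) → ℝ) i • (w i : Fin (n + 1) → ℝ)) - (w 0 : Fin (n + 1) → ℝ)‖ := by
    rw [← dist_eq_norm]
    rfl
  have e2 : (∑ i, (t : Fin (k + 1) → ℝ) i • (w i : Fin (n + 1) → ℝ)) - (w 0 : Fin (n + 1) → ℝ) =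
      ∑ i, (t : Fin (k + 1) → ℝ) i • ((w i : Fin (n + 1) → ℝ) - (w 0 : Fin (n + 1) → ℝ)) := by
    simp only [smul_sub, Finset.sum_sub_distrib]
    rw [← Finset.sum_smul, h1, one_smul]
  rw [e, e2]
  calc _ ≤ ∑ i, ‖(t : Fin (k + 1) → ℝ) i • ((w i : Fin (n + 1) → ℝ) - (w 0 : Fin (n + 1) → ℝ))‖ := norm_sum_le _ _
    _ ≤ ∑ i, (t : Fin (k + 1) → ℝ) i * r := by
        refine Finset.sum_le_sum fun i _ => ?_
        rw [norm_smul, Real.norm_eq_abs, abs_of_nonneg (h0 i)]
        refine mul_le_mul_of_nonneg_left ?_ (h0 i)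
        rw [← dist_eq_norm]
        exact h i
    _ = r := by rw [← Finset.sum_mul, h1, one_mul]

/-! ### Chains of small simplices -/

private def sml (S : Type) [MetricSpace S] (ρ : ℝ) : Submodule ℤ (Ch S 1) :=
  Finsupp.supported ℤ ℤ {σ : Sx S 1 | Metric.diam (range σ) < ρ}

private lemma diam_comp {S : Type} [MetricSpace S] {n k : ℕ} (σ : Sx S n) (w : Av n k) :
    Metric.diam (range (σ.comp (lin w))) ≤ Metric.diam (range σ) :=
  Metric.diam_mono (range_comp_sub σ w) (isCompact_range σ.continuous).isBounded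

private lemma Sd_sml {S : Type} [MetricSpace S] (ρ : ℝ) : ∀ c ∈ sml S ρ, Sd 1 c ∈ sml S ρ := by
  refine map_sup (Sd 1) _ (sml S ρ) fun σ hσ => ?_
  rw [Sd_single]
  refine map_sup (act σ 1) univ (sml S ρ) (fun w _ => ?_) _ ?_
  · rw [act_single]
    exact Finsupp.single_mem_supported ℤ 1 (lt_of_le_of_lt (diam_comp σ w) hσ)
  · rw [Finsupp.supported_univ]
    trivial

private lemma small (hLNA : StLNA) (hABD : StABD) (hMSH : StMSH) {S : Type} [MetricSpace S] (ρ : ℝ)
    (hρ : 0 < ρ) (c : Ch S 1) : ∃ m : ℕ, ((Sd 1)^[m]) c ∈ sml S ρ := by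
  have hmono : ∀ (k : ℕ) (c : Ch S 1), c ∈ sml S ρ → ((Sd 1)^[k]) c ∈ sml S ρ := by
    intro k
    induction k with
    | zero => intro c hc; exact hc
    | succ k ih => intro c hc; rw [Function.iterate_succ_apply]; exact ih _ (Sd_sml ρ _ hc)
  have hpow : ∀ (k : ℕ) (c : Ch S 1), ((Sd 1)^[k]) c = ((Sd 1 : Module.End ℤ (Ch S 1)) ^ k) c :=
    fun k c => (Module.End.pow_apply (Sd 1) k c).symm
  induction c using Finsupp.induction_linear with
  | zero =>
    exact ⟨0, Submodule.zero_mem _⟩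
  | add x y hx hy =>
    obtain ⟨a, ha⟩ := hx
    obtain ⟨b, hb⟩ := hy
    refine ⟨a + b, ?_⟩
    rw [hpow, map_add, ← hpow, ← hpow]
    refine Submodule.add_mem _ ?_ ?_
    · rw [add_comm, Function.iterate_add_apply]
      exact hmono b _ ha
    · rw [Function.iterate_add_apply]
      exact hmono a _ hb
  | single σ r =>
    have huc := CompactSpace.uniformContinuous_of_continuous σ.continuous
    obtain ⟨δ, hδ, hL⟩ := Metric.uniformContinuous_iff.1 huc (ρ / 4) (by positivity)
    have hlim : Filter.Tendsto (fun m : ℕ => (((1 : ℕ) : ℝ) / ((1 : ℕ) + 1)) ^ m * 2) Filter.atTop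
        (𝓝 (0 * 2)) := by
      refine Filter.Tendsto.mul_const 2 ?_
      exact tendsto_pow_atTop_nhds_zero_of_lt_one (by positivity) (by norm_num)
    rw [zero_mul] at hlim
    obtain ⟨m, hm⟩ := (hlim.eventually (gt_mem_nhds hδ)).exists
    refine ⟨m, ?_⟩
    have e1 : (Finsupp.single σ r : Ch S 1) = r • Finsupp.single σ 1 := by simp
    rw [hpow, e1, map_smul, ← hpow]
    refine Submodule.smul_mem _ r ?_
    rw [Sd_iter hLNA hABD]
    refine map_sup (act σ 1) _ _ (fun w hw => ?_) _ (mesh hMSH 1 m)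
    rw [act_single]
    refine Finsupp.single_mem_supported ℤ 1 ?_
    have h3 : ∀ t : Dl 1, dist ((σ.comp (lin w)) t) (σ (w 0)) ≤ ρ / 4 := by
      intro t
      have h4 : dist (lin w t) (w 0) < δ := lt_of_le_of_lt (lin_ball w _ (fun i => hw i 0) t) hm
      exact (hL h4).le
    have h5 : Metric.diam (range (σ.comp (lin w))) ≤ ρ / 2 := by
      refine Metric.diam_le_of_forall_dist_le (by positivity) ?_
      rintro _ ⟨t, rfl⟩ _ ⟨t', rfl⟩
      calc dist ((σ.comp (lin w)) t) ((σ.comp (lin w)) t')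
          ≤ dist ((σ.comp (lin w)) t) (σ (w 0)) + dist ((σ.comp (lin w)) t') (σ (w 0)) :=
            dist_triangle_right _ _ _
        _ ≤ ρ / 4 + ρ / 4 := add_le_add (h3 t) (h3 t')
        _ = ρ / 2 := by ring
    show Metric.diam (range (σ.comp (lin w))) < ρ
    linarith

private lemma homot (hSDA : StSDA) {S : Type} [TopologicalSpace S] (Q : Set S) :
    ∀ (m : ℕ) (z : Ch S 1), z ∈ cin Q 1 → bd 0 z = 0 →
      ((Sd 1)^[m]) z ∈ cin Q 1 ∧ ∃ f ∈ cin Q 2, z - ((Sd 1)^[m]) z = bd 1 f := by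
  intro m
  induction m with
  | zero =>
    intro z hz _
    exact ⟨hz, 0, Submodule.zero_mem _, by simp⟩
  | succ m ih =>
    intro z hz hbz
    obtain ⟨_, h2, h3, _, h5⟩ := hSDA S
    have hc := h5 Q 1 z hz
    have hb : bd 0 (Sd 1 z) = 0 := by
      rw [h2 0 z, hbz, map_zero]
    obtain ⟨i1, f, hf, hf2⟩ := ih (Sd 1 z) hc.1 hb
    rw [Function.iterate_succ_apply]
    refine ⟨i1, Th 1 z + f, Submodule.add_mem _ hc.2 hf, ?_⟩
    have h6 := h3 0 z
    rw [hbz, map_zero, add_zero] at h6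
    rw [map_add, ← hf2]
    have h7 : bd 1 (Th 1 z) = z - Sd 1 z := h6
    rw [h7]
    abel

/-- MODULE SDM -/
theorem hSDM (hSDA : StSDA) (hMSH : StMSH) (hLNA : StLNA) (hABD : StABD) : StSDM := by
  intro S _ Q ρ hρ z hz hbz
  obtain ⟨m, hm⟩ := small hLNA hABD hMSH ρ hρ z
  obtain ⟨h1, f, hf, hf2⟩ := homot hSDA Q m z hz hbz
  refine ⟨((Sd 1)^[m]) z, h1, f, hf, hf2, fun σ hσ => ?_⟩
  exact (Finsupp.mem_supported ℤ _).1 hm hσ

end Pool.Agent.Helper66.TW
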