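import Pool.Agent.Helper78.TW.StA

/-!
# Project TW, module Rk: rank of the multiplication by a polynomial
-/

set_option autoImplicit false

namespace Pool.Agent.Helper66.TW

open Pool.Agent.Helper14.CV Pool.Agent.Helper28.WK Pool.Agent.Helper78.TW

/-- the weight -/
private def wt (p : ℕ × ℕ) : ℕ := 3 * p.1 + 4 * p.2

/-- the points of weight at most `w - ω` -/
private def TT (w ω : ℕ) : Finset (ℕ × ℕ) :=
  (Finset.range (w + 1) ×ˢ Finset.range (w + 1)).filter (fun p => wt p + ω ≤ w)

private theorem mem_TT (w ω : ℕ) (p : ℕ × ℕ) : p ∈ TT w ω ↔ wt p + ω ≤ w := by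
  unfold TT wt
  rw [Finset.mem_filter, Finset.mem_product, Finset.mem_range, Finset.mem_range]
  constructor
  · exact fun h => h.2
  · intro h
    exact ⟨⟨by omega, by omega⟩, h⟩

private theorem card_TT (w ω : ℕ) : (TT w 0).card ≤ (TT w ω).card + ω * (w + 1) := by
  have h1 : TT w 0 ⊆ TT w ω ∪ (TT w 0).filter (fun p => w < wt p + ω) := by
    intro p hp
    rw [Finset.mem_union, Finset.mem_filter, mem_TT]
    by_cases h : wt p + ω ≤ w
    · exact Or.inl h
    · exact Or.inr ⟨hp, by omega⟩
  have h2 : ((TT w 0).filter (fun p => w < wt p + ω)).card ≤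
      (Finset.range ω ×ˢ Finset.range (w + 1)).card := by
    refine Finset.card_le_card_of_injOn (fun p => (w - wt p, p.1)) ?_ ?_
    · intro p hp
      have hp' : p ∈ (TT w 0).filter (fun p => w < wt p + ω) := hp
      rw [Finset.mem_filter, mem_TT] at hp'
      obtain ⟨h3, h4⟩ := hp'
      rw [Finset.mem_coe, Finset.mem_product, Finset.mem_range, Finset.mem_range]
      unfold wt at h3 h4 ⊢
      exact ⟨by show w - (3 * p.1 + 4 * p.2) < ω; omega, by show p.1 < w + 1; omega⟩
    · intro p hp q hq h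
      have hp' : p ∈ (TT w 0).filter (fun p => w < wt p + ω) := hp
      have hq' : q ∈ (TT w 0).filter (fun p => w < wt p + ω) := hq
      rw [Finset.mem_filter, mem_TT] at hp' hq'
      have h3 : w - wt p = w - wt q := congrArg Prod.fst h
      have h4 : p.1 = q.1 := congrArg Prod.snd h
      obtain ⟨h5, _⟩ := hp'
      obtain ⟨h6, _⟩ := hq'
      unfold wt at h3 h5 h6
      exact Prod.ext h4 (by omega)
  rw [Finset.card_product, Finset.card_range, Finset.card_range] at h2
  calc (TT w 0).card ≤ (TT w ω ∪ (TT w 0).filter (fun p => w < wt p + ω)).card :=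
        Finset.card_le_card h1
    _ ≤ (TT w ω).card + ((TT w 0).filter (fun p => w < wt p + ω)).card :=
        Finset.card_union_le _ _
    _ ≤ _ := by omega

section

variable {F : Type} [Field F] {N : ℕ}

/-- evaluation of a truncated polynomial -/
private def ev0 (w : ℕ) (E : ℕ → ℕ → Fin N → F) : (↥(TT w 0) → F) →ₗ[F] (Fin N → F) where
  toFun f := ∑ s : ↥(TT w 0), f s • E s.1.1 s.1.2
  map_add' f f' := by
    rw [← Finset.sum_add_distrib]
    exact Finset.sum_congr rfl fun s _ => by rw [Pi.add_apply, add_smul]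
  map_smul' c f := by
    rw [Finset.smul_sum]
    exact Finset.sum_congr rfl fun s _ => by
      rw [Pi.smul_apply, smul_eq_mul, mul_smul, RingHom.id_apply]

/-- multiplication by `g`, truncated -/
private def mu0 (w ω : ℕ) (S : Finset (ℕ × ℕ)) (g : ℕ × ℕ → F) :
    (↥(TT w ω) → F) →ₗ[F] (↥(TT w 0) → F) where
  toFun h := fun s => ∑ q : ↥(TT w ω), ∑ p ∈ S, if q.1 + p = s.1 then h q * g p else 0
  map_add' h h' := by
    funext s
    rw [Pi.add_apply, ← Finset.sum_add_distrib]
    refine Finset.sum_congr rfl fun q _ => ?_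
    rw [← Finset.sum_add_distrib]
    refine Finset.sum_congr rfl fun p _ => ?_
    split_ifs
    · rw [Pi.add_apply, add_mul]
    · rw [add_zero]
  map_smul' c h := by
    funext s
    rw [Pi.smul_apply, smul_eq_mul, Finset.mul_sum]
    refine Finset.sum_congr rfl fun q _ => ?_
    rw [Finset.mul_sum]
    refine Finset.sum_congr rfl fun p _ => ?_
    split_ifs
    · rw [Pi.smul_apply, smul_eq_mul, mul_assoc, RingHom.id_apply]
    · rw [mul_zero]

private theorem mu0_apply (w ω : ℕ) (S : Finset (ℕ × ℕ)) (g : ℕ × ℕ → F) (h : ↥(TT w ω) → F)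
    (s : ↥(TT w 0)) :
    mu0 w ω S g h s = ∑ q : ↥(TT w ω), ∑ p ∈ S, if q.1 + p = s.1 then h q * g p else 0 := rfl

private theorem ev0_mu0 (w ω : ℕ) (S : Finset (ℕ × ℕ)) (g : ℕ × ℕ → F)
    (E : ℕ → ℕ → Fin N → F) (hE : ∀ i j : ℕ, w < 3 * i + 4 * j → E i j = 0)
    (h : ↥(TT w ω) → F) :
    ev0 w E (mu0 w ω S g h) =
      ∑ q : ↥(TT w ω), h q • ∑ p ∈ S, g p • E (q.1.1 + p.1) (q.1.2 + p.2) := by
  show ∑ s : ↥(TT w 0), mu0 w ω S g h s • E s.1.1 s.1.2 = _
  have h1 : ∀ s : ↥(TT w 0), mu0 w ω S g h s • E s.1.1 s.1.2 =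
      ∑ q : ↥(TT w ω), ∑ p ∈ S,
        if q.1 + p = s.1 then (h q * g p) • E (q.1.1 + p.1) (q.1.2 + p.2) else 0 := by
    intro s
    rw [mu0_apply, Finset.sum_smul]
    refine Finset.sum_congr rfl fun q _ => ?_
    rw [Finset.sum_smul]
    refine Finset.sum_congr rfl fun p _ => ?_
    split_ifs with h2
    · rw [← h2]
      rfl
    · rw [zero_smul]
  rw [Finset.sum_congr rfl fun s _ => h1 s, Finset.sum_comm]
  refine Finset.sum_congr rfl fun q _ => ?_
  rw [Finset.sum_comm, Finset.smul_sum]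
  refine Finset.sum_congr rfl fun p _ => ?_
  by_cases h2 : q.1 + p ∈ TT w 0
  · rw [Finset.sum_eq_single (⟨q.1 + p, h2⟩ : ↥(TT w 0))]
    · rw [if_pos rfl, mul_smul]
    · intro s _ hs
      rw [if_neg]
      intro h3
      exact hs (Subtype.ext h3.symm)
    · intro h3
      exact absurd (Finset.mem_univ _) h3
  · have h3 : E (q.1.1 + p.1) (q.1.2 + p.2) = 0 := by
      refine hE _ _ ?_
      rw [mem_TT] at h2
      unfold wt at h2
      have h4 : (q.1 + p).1 = q.1.1 + p.1 := rfl
      have h5 : (q.1 + p).2 = q.1.2 + p.2 := rfl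
      rw [h4, h5] at h2
      omega
    have h6 : ∀ s : ↥(TT w 0), (if q.1 + p = s.1 then
        (h q * g p) • E (q.1.1 + p.1) (q.1.2 + p.2) else 0) = 0 := by
      intro s
      rw [h3, smul_zero, ite_self]
    rw [Finset.sum_eq_zero fun s _ => h6 s, h3, smul_zero, smul_zero]

end

theorem hRk : StRk := by
  intro F _ N w w1 E S g hspan hE hg
  classical
  obtain ⟨p1, hp1S, hp1g, hp1w⟩ := hg
  -- the key
  set K : ℕ := w + 1 + ∑ p ∈ S, p.1 with hK
  have hKS : ∀ p ∈ S, p.1 < K := by
    intro p hp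
    have h1 : p.1 ≤ ∑ p ∈ S, p.1 :=
      Finset.single_le_sum (f := fun p : ℕ × ℕ => p.1) (fun _ _ => Nat.zero_le _) hp
    omega
  set key : ℕ × ℕ → ℕ := fun p => wt p * K + p.1 with hkey
  have hadd : ∀ p q, key (p + q) = key p + key q := by
    intro p q
    show wt (p + q) * K + (p + q).1 = (wt p * K + p.1) + (wt q * K + q.1)
    have h1 : wt (p + q) = wt p + wt q := by
      unfold wt
      rw [Prod.fst_add, Prod.snd_add]
      ring
    rw [h1, Prod.fst_add]
    ring
  have hinj : ∀ p q : ℕ × ℕ, p.1 < K → q.1 < K → key p = key q → p = q := by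
    intro p q hp hq h
    have h0 : wt p * K + p.1 = wt q * K + q.1 := h
    have h1 : p.1 = q.1 := by
      have h2 := congrArg (· % K) h0
      simp only [Nat.mul_comm _ K, Nat.mul_add_mod] at h2
      rwa [Nat.mod_eq_of_lt hp, Nat.mod_eq_of_lt hq] at h2
    have h3 : wt p * K = wt q * K := by omega
    have h4 : wt p = wt q := Nat.eq_of_mul_eq_mul_right (by omega) h3
    unfold wt at h4
    exact Prod.ext h1 (by omega)
  obtain ⟨p0, hp0, hmin⟩ := Finset.exists_min_image (S.filter (fun p => g p ≠ 0)) key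
    ⟨p1, Finset.mem_filter.2 ⟨hp1S, hp1g⟩⟩
  rw [Finset.mem_filter] at hp0
  obtain ⟨hp0S, hp0g⟩ := hp0
  set ω : ℕ := wt p0 with hω
  have hω1 : ω ≤ w1 := by
    have h1 := hmin p1 (Finset.mem_filter.2 ⟨hp1S, hp1g⟩)
    have h2 : wt p0 * K + p0.1 ≤ wt p1 * K + p1.1 := h1
    have h3 := hKS p1 hp1S
    have h4 : wt p0 * K < (wt p1 + 1) * K := by
      rw [Nat.add_mul]
      omega
    have h5 : wt p0 < wt p1 + 1 := Nat.lt_of_mul_lt_mul_right h4
    have h6 : wt p1 ≤ w1 := hp1w
    omega
  -- injectivity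
  have hmu : Function.Injective (mu0 w ω S g) := by
    rw [injective_iff_map_eq_zero]
    intro h hh
    by_contra hne
    have hex : ((Finset.univ : Finset ↥(TT w ω)).filter (fun q => h q ≠ 0)).Nonempty := by
      by_contra hem
      rw [Finset.not_nonempty_iff_eq_empty, Finset.filter_eq_empty_iff] at hem
      apply hne
      funext q
      exact not_not.1 (hem (Finset.mem_univ q))
    obtain ⟨q0, hq0, hqmin⟩ := Finset.exists_min_image _ (fun q : ↥(TT w ω) => key q.1) hex
    rw [Finset.mem_filter] at hq0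
    have hq0T := (mem_TT w ω q0.1).1 q0.2
    have hs0 : q0.1 + p0 ∈ TT w 0 := by
      rw [mem_TT]
      unfold wt at hω hq0T ⊢
      rw [Prod.fst_add, Prod.snd_add]
      omega
    have hval := congrFun hh (⟨q0.1 + p0, hs0⟩ : ↥(TT w 0))
    rw [mu0_apply, Pi.zero_apply] at hval
    have hTK : ∀ q : ↥(TT w ω), q.1.1 < K := by
      intro q
      have h1 := (mem_TT w ω q.1).1 q.2
      unfold wt at h1
      omega
    rw [Finset.sum_eq_single q0] at hval
    · rw [Finset.sum_eq_single p0] at hval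
      · rw [if_pos rfl] at hval
        rcases mul_eq_zero.1 hval with h1 | h1
        · exact hq0.2 h1
        · exact hp0g h1
      · intro p _ hp
        rw [if_neg]
        intro h1
        exact hp (add_left_cancel h1)
      · intro h1
        exact absurd hp0S h1
    · intro q _ hq
      refine Finset.sum_eq_zero fun p hp => ?_
      split_ifs with h1
      · by_cases h2 : h q = 0
        · rw [h2, zero_mul]
        by_cases h3 : g p = 0
        · rw [h3, mul_zero]
        exfalso
        have h4 : key q0.1 ≤ key q.1 := hqmin q (Finset.mem_filter.2 ⟨Finset.mem_univ _, h2⟩)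
        have h5 := hmin p (Finset.mem_filter.2 ⟨hp, h3⟩)
        have h6 := congrArg key h1
        have h6' : key (q.1 + p) = key (q0.1 + p0) := h6
        rw [hadd, hadd] at h6'
        have h7 : key q.1 = key q0.1 := by omega
        exact hq (Subtype.ext (hinj _ _ (hTK q) (hTK q0) h7))
      · rfl
    · intro h1
      exact absurd (Finset.mem_univ _) h1
  -- the map `e` is surjective
  have hsurj : LinearMap.range (ev0 w E) = ⊤ := by
    rw [eq_top_iff, ← hspan, Submodule.span_le]
    rintro _ ⟨p, rfl⟩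
    show E p.1 p.2 ∈ LinearMap.range (ev0 w E)
    by_cases h : p ∈ TT w 0
    · refine ⟨Pi.single (⟨p, h⟩ : ↥(TT w 0)) 1, ?_⟩
      show ∑ s : ↥(TT w 0), (Pi.single (⟨p, h⟩ : ↥(TT w 0)) (1 : F) : ↥(TT w 0) → F) s •
        E s.1.1 s.1.2 = E p.1 p.2
      rw [Finset.sum_eq_single (⟨p, h⟩ : ↥(TT w 0))]
      · rw [Pi.single_eq_same, one_smul]
      · intro s _ hs
        rw [Pi.single_eq_of_ne hs, zero_smul]
      · intro h1
        exact absurd (Finset.mem_univ _) h1
    · have h1 : E p.1 p.2 = 0 := by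
        refine hE _ _ ?_
        rw [mem_TT] at h
        unfold wt at h
        omega
      rw [h1]
      exact Submodule.zero_mem _
  have hd1 := LinearMap.finrank_range_add_finrank_ker (ev0 w E)
  rw [hsurj, finrank_top, Module.finrank_fin_fun, Module.finrank_fintype_fun_eq_card,
    Fintype.card_coe] at hd1
  have hd2 := LinearMap.finrank_range_add_finrank_ker (ev0 w E ∘ₗ mu0 w ω S g)
  rw [Module.finrank_fintype_fun_eq_card, Fintype.card_coe] at hd2
  -- kernels
  have hk : Module.finrank F (LinearMap.ker (ev0 w E ∘ₗ mu0 w ω S g)) ≤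
      Module.finrank F (LinearMap.ker (ev0 w E)) := by
    have h1 : ∀ x ∈ LinearMap.ker (ev0 w E ∘ₗ mu0 w ω S g), mu0 w ω S g x ∈
        LinearMap.ker (ev0 w E) := fun x hx => hx
    refine LinearMap.finrank_le_finrank_of_injective
      (f := (mu0 w ω S g).restrict h1) ?_
    intro x y hxy
    apply Subtype.ext
    apply hmu
    exact congrArg Subtype.val hxy
  -- the range
  have hr : Module.finrank F (LinearMap.range (ev0 w E ∘ₗ mu0 w ω S g)) ≤
      Module.finrank F (Submodule.span F (Set.range fun q : ℕ × ℕ =>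
        ∑ p ∈ S, g p • E (q.1 + p.1) (q.2 + p.2))) := by
    refine Submodule.finrank_mono ?_
    rintro _ ⟨h, rfl⟩
    rw [LinearMap.comp_apply, ev0_mu0 w ω S g E hE h]
    refine Submodule.sum_mem _ fun q _ => Submodule.smul_mem _ _ (Submodule.subset_span ?_)
    exact ⟨q.1, rfl⟩
  have hc := card_TT w ω
  have hm : ω * (w + 1) ≤ w1 * (w + 1) := Nat.mul_le_mul_right _ hω1
  omega

end Pool.Agent.Helper66.TW
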