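import Pool.Agent.Helper31.TW.St1
import Pool.Agent.Helper22.CS.Suff

set_option autoImplicit false

/-!
# Module SUF (project TW, MP_434a84_lc): cut sets have context-free commutative languages
-/

namespace Pool.Agent.Helper66.TW

open Pool.Agent.Helper31.TW Pool.Agent.Helper22.CS

theorem smul_inj {n d : ℕ} (hd : 1 ≤ d) :
    Function.Injective (fun p : Fin n → ℕ => d • p) := by
  intro p q h
  funext i
  have h1 : d * p i = d * q i := by
    have := congrFun h i
    simpa using this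
  exact Nat.eq_of_mul_eq_mul_left hd h1

theorem div_smul' {n d : ℕ} (hd : 1 ≤ d) (p : Fin n → ℕ) : (fun i => (d • p) i / d) = p := by
  funext i
  simp only [Pi.smul_apply, smul_eq_mul]
  exact Nat.mul_div_cancel_left (p i) hd

theorem letters_smul {n d : ℕ} (hd : 1 ≤ d) (p : Fin n → ℕ) : letters (d • p) = letters p := by
  ext a
  rw [mem_letters, mem_letters]
  simp only [Pi.smul_apply, smul_eq_mul]
  constructor
  · intro h h0
    exact h (by rw [h0, mul_zero])
  · intro h h0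
    rcases Nat.mul_eq_zero.1 h0 with h1 | h1
    · omega
    · exact h h1

theorem sum_smul_image {n d : ℕ} (hd : 1 ≤ d) [DecidableEq (Fin n → ℕ)]
    (P : Finset (Fin n → ℕ)) (t : (Fin n → ℕ) → ℕ) :
    ∑ q ∈ P.image (fun p => d • p), t q • q = d • ∑ p ∈ P, t (d • p) • p := by
  rw [Finset.sum_image (fun x _ y _ h => smul_inj hd h), Finset.smul_sum]
  refine Finset.sum_congr rfl ?_
  intro p _
  rw [smul_smul, smul_smul, mul_comm]

theorem sum_smul_image' {n d : ℕ} (hd : 1 ≤ d) [DecidableEq (Fin n → ℕ)]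
    (P : Finset (Fin n → ℕ)) (s : (Fin n → ℕ) → ℕ) :
    ∑ q ∈ P.image (fun p => d • p), s (fun i => q i / d) • q = d • ∑ p ∈ P, s p • p := by
  rw [sum_smul_image hd P (fun q => s (fun i => q i / d))]
  congr 1
  refine Finset.sum_congr rfl ?_
  intro p _
  simp only [div_smul' hd p]

theorem cuttable_smul {n d : ℕ} (hd : 1 ≤ d) [DecidableEq (Fin n → ℕ)]
    (P : Finset (Fin n → ℕ)) (hP : Cuttable P) : Cuttable (P.image (fun p => d • p)) := by
  intro S' hS' hne
  obtain ⟨hsub, hface⟩ := hS'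
  obtain ⟨S, hS⟩ : ∃ S : Finset (Fin n → ℕ), S = P.filter (fun p => d • p ∈ S') := ⟨_, rfl⟩
  have himg : S.image (fun p => d • p) = S' := by
    ext q
    rw [Finset.mem_image]
    constructor
    · rintro ⟨p, hp, rfl⟩
      rw [hS, Finset.mem_filter] at hp
      exact hp.2
    · intro hq
      obtain ⟨p, hp, hpq⟩ := Finset.mem_image.1 (hsub hq)
      refine ⟨p, ?_, hpq⟩
      rw [hS, Finset.mem_filter]
      exact ⟨hp, by rw [hpq]; exact hq⟩
  have hF : IsFace P S := by
    refine ⟨by rw [hS]; exact Finset.filter_subset _ _, ?_⟩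
    intro s t hst p hp hpS
    have h1 := hface (fun q => s (fun i => q i / d)) (fun q => t (fun i => q i / d)) (by
      rw [sum_smul_image' hd P s, ← himg, sum_smul_image' hd S t, hst]) (d • p)
      (Finset.mem_image.2 ⟨p, hp, rfl⟩) (by
        intro h
        apply hpS
        rw [hS, Finset.mem_filter]
        exact ⟨hp, h⟩)
    simpa only [div_smul' hd p] using h1
  have hne' : ∃ p ∈ S, p ≠ 0 := by
    obtain ⟨q, hq, hq0⟩ := hne
    rw [← himg] at hq
    obtain ⟨p, hp, rfl⟩ := Finset.mem_image.1 hq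
    refine ⟨p, hp, ?_⟩
    rintro rfl
    exact hq0 (smul_zero d)
  rcases hP S hF hne' with ⟨p, hp, a, ha⟩ | ⟨A, B, hA, hB, hAB, h1, h2⟩
  · left
    refine ⟨d • p, ?_, a, ?_⟩
    · rw [← himg]
      exact Finset.mem_image.2 ⟨p, hp, rfl⟩
    · rw [letters_smul hd, ha]
  · right
    refine ⟨A, B, hA, hB, hAB, ?_, ?_⟩
    · intro q hq
      rw [← himg] at hq
      obtain ⟨p, hp, rfl⟩ := Finset.mem_image.1 hq
      rw [letters_smul hd]
      exact h1 p hp
    · intro a ha b hb
      obtain ⟨p, hp, hpl⟩ := h2 a ha b hb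
      refine ⟨d • p, ?_, ?_⟩
      · rw [← himg]
        exact Finset.mem_image.2 ⟨p, hp, rfl⟩
      · rw [letters_smul hd, hpl]

theorem hSUF (hDCK : StDCK) (hCUT : StCUT) : StSUF := by
  classical
  intro n C hC
  obtain ⟨I, a, d, A, hd, hA, rfl⟩ := hC
  obtain ⟨F, P, h1, h2⟩ := hDCK n I A
  have hcut : Cuttable P := hCUT n I A P hA h2
  have hcut' := cuttable_smul hd P hcut
  have hset : {x : Fin n → ℕ | ∃ t : Fin n → ℕ, (∀ i, i ∉ I → t i = 0) ∧
      (∀ p ∈ A, p.2 ≤ frm p.1 t) ∧ x = a + d • t} =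
      periodSet (F.image (fun f => a + d • f)) (P.image (fun p => d • p)) := by
    ext x
    constructor
    · rintro ⟨t, ht1, ht2, rfl⟩
      obtain ⟨c, hc, s, hs⟩ := (h1 t).1 ⟨ht1, ht2⟩
      refine ⟨a + d • c, Finset.mem_image.2 ⟨c, hc, rfl⟩, fun q => s (fun i => q i / d), ?_⟩
      rw [sum_smul_image' hd P s, hs, smul_add, add_assoc]
    · rintro ⟨c', hc', t, rfl⟩
      obtain ⟨c, hc, rfl⟩ := Finset.mem_image.1 hc'
      have h3 : c + ∑ p ∈ P, t (d • p) • p ∈ periodSet F P :=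
        ⟨c, hc, fun p => t (d • p), rfl⟩
      obtain ⟨h4, h5⟩ := (h1 _).2 h3
      refine ⟨c + ∑ p ∈ P, t (d • p) • p, h4, h5, ?_⟩
      rw [sum_smul_image hd P t, smul_add, add_assoc]
  rw [hset]
  exact isContextFree_of_cuttable _ _ hcut'

end Pool.Agent.Helper66.TW
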